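import Pool.Agent.Helper52.KP.StL

/-! # Project KP, module CAL: rules of calculus for `dz`, `db` -/

set_option autoImplicit false

namespace Pool.Agent.Helper98.KP

open MeasureTheory Pool.Agent.Helper52.KP
open scoped ContDiff ComplexOrder Topology

variable {m : ℕ}

lemma dz_of {j : Fin m} {f : (Fin m → ℂ) → ℂ} {z : Fin m → ℂ} {L : (Fin m → ℂ) →L[ℝ] ℂ}
    (h : HasFDerivAt f L z) :
    dz j f z = (L (Pi.single j 1) - Complex.I * L (Pi.single j Complex.I)) / 2 := by
  unfold dz; rw [h.fderiv]

lemma db_of {j : Fin m} {f : (Fin m → ℂ) → ℂ} {z : Fin m → ℂ} {L : (Fin m → ℂ) →L[ℝ] ℂ}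
    (h : HasFDerivAt f L z) :
    db j f z = (L (Pi.single j 1) + Complex.I * L (Pi.single j Complex.I)) / 2 := by
  unfold db; rw [h.fderiv]

lemma decomp (v : Fin m → ℂ) : v = ∑ i, ((v i).re • (Pi.single i (1 : ℂ) : Fin m → ℂ) +
    (v i).im • (Pi.single i Complex.I : Fin m → ℂ)) := by
  funext k
  rw [Finset.sum_apply]
  rw [Finset.sum_eq_single k]
  · have h := Complex.re_add_im (v k)
    simp only [Pi.add_apply, Pi.smul_apply, Pi.single_eq_same, Complex.real_smul, mul_one]
    exact h.symm
  · intro i _ hik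
    simp [Pi.single_apply, hik.symm]
  · intro h; exact absurd (Finset.mem_univ k) h

lemma lin_formula (L : (Fin m → ℂ) →L[ℝ] ℂ) (v : Fin m → ℂ) :
    L v = ∑ i, ((L (Pi.single i 1) - Complex.I * L (Pi.single i Complex.I)) / 2 * v i +
      (L (Pi.single i 1) + Complex.I * L (Pi.single i Complex.I)) / 2 * star (v i)) := by
  conv_lhs => rw [decomp v]
  rw [map_sum]
  refine Finset.sum_congr rfl fun i _ => ?_
  rw [map_add, map_smul, map_smul, Complex.real_smul, Complex.real_smul]
  have h1 : v i = ((v i).re : ℂ) + ((v i).im : ℂ) * Complex.I := (Complex.re_add_im _).symm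
  have h2 : star (v i) = ((v i).re : ℂ) - ((v i).im : ℂ) * Complex.I := by
    apply Complex.ext <;> simp
  rw [h2]
  conv_rhs => rw [h1]
  simp only [Complex.add_re, Complex.ofReal_re, Complex.mul_re, Complex.I_re, Complex.ofReal_im,
    Complex.I_im, Complex.add_im, Complex.mul_im]
  ring_nf
  rw [Complex.I_sq]
  ring

theorem hCAL : StCAL := by
  intro m j k f f' z
  refine ⟨?_, ?_, ?_, ?_, ?_⟩
  · intro hf hf'
    have h1 := hf.hasFDerivAt
    have h2 := hf'.hasFDerivAt
    have hadd := h1.add h2
    have hmul := h1.mul h2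
    have hstar : HasFDerivAt (fun z => star (f z))
        ((Complex.conjCLE : ℂ →L[ℝ] ℂ).comp (fderiv ℝ f z)) z :=
      (Complex.conjCLE : ℂ ≃L[ℝ] ℂ).hasFDerivAt.comp z h1
    have hexp : HasFDerivAt (fun z => Complex.exp (f z)) (Complex.exp (f z) • fderiv ℝ f z) z :=
      h1.cexp
    refine ⟨?_, ?_, ?_, ?_, ?_, ?_, ?_, ?_⟩
    · rw [show (fun z => f z + f' z) = f + f' from rfl, dz_of hadd, dz_of h1, dz_of h2]
      simp only [add_apply]; ring
    · rw [show (fun z => f z + f' z) = f + f' from rfl, db_of hadd, db_of h1, db_of h2]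
      simp only [add_apply]; ring
    · rw [show (fun z => f z * f' z) = f * f' from rfl, dz_of hmul, dz_of h1, dz_of h2]
      simp only [add_apply, smul_apply, smul_eq_mul]; ring
    · rw [show (fun z => f z * f' z) = f * f' from rfl, db_of hmul, db_of h1, db_of h2]
      simp only [add_apply, smul_apply, smul_eq_mul]; ring
    · rw [dz_of hstar, db_of h1]
      simp only [ContinuousLinearMap.comp_apply, ContinuousLinearEquiv.coe_coe,
        Complex.conjCLE_apply]
      simp only [star_div₀, star_add, star_mul', Complex.star_def, Complex.conj_I]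
      rw [show (starRingEnd ℂ) 2 = 2 from map_ofNat _ 2]
      ring
    · rw [db_of hstar, dz_of h1]
      simp only [ContinuousLinearMap.comp_apply, ContinuousLinearEquiv.coe_coe,
        Complex.conjCLE_apply]
      simp only [star_div₀, star_sub, star_mul', Complex.star_def, Complex.conj_I]
      rw [show (starRingEnd ℂ) 2 = 2 from map_ofNat _ 2]
      ring
    · rw [dz_of hexp, dz_of h1]
      simp only [smul_apply, smul_eq_mul]; ring
    · rw [db_of hexp, db_of h1]
      simp only [smul_apply, smul_eq_mul]; ring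
  · intro hf
    have h1 := hf.hasFDerivAt
    have hform : ∀ v, fderiv ℝ f z v = ∑ i, (dz i f z * v i + db i f z * star (v i)) :=
      fun v => lin_formula _ v
    refine ⟨hform, ?_⟩
    intro h0
    obtain ⟨L, hL⟩ : ∃ L : (Fin m → ℂ) →L[ℂ] ℂ,
        L = ∑ i, dz i f z • (ContinuousLinearMap.proj i : (Fin m → ℂ) →L[ℂ] ℂ) := ⟨_, rfl⟩
    have hLR : L.restrictScalars ℝ = fderiv ℝ f z := by
      ext v
      rw [hform v]
      simp only [h0, zero_mul, add_zero]
      rw [ContinuousLinearMap.coe_restrictScalars', hL]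
      simp
    exact (hasFDerivAt_of_restrictScalars ℝ h1 hLR).differentiableAt
  · intro hf
    have h1 : HasFDerivAt f ((fderiv ℂ f z).restrictScalars ℝ) z :=
      hf.hasFDerivAt.restrictScalars ℝ
    have hI : (Pi.single j Complex.I : Fin m → ℂ) = Complex.I • Pi.single j (1 : ℂ) := by
      funext i
      by_cases h : i = j
      · subst h; simp
      · simp [Pi.single_apply, h]
    rw [db_of h1, dz_of h1]
    simp only [ContinuousLinearMap.coe_restrictScalars']
    rw [hI, map_smul, smul_eq_mul, ← mul_assoc, Complex.I_mul_I]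
    constructor <;> ring
  · intro hf
    have hsym : IsSymmSndFDerivAt ℝ f z :=
      hf.isSymmSndFDerivAt (by rw [minSmoothness_of_isRCLikeNormedField])
    have hd : DifferentiableAt ℝ (fderiv ℝ f) z :=
      (hf.fderiv_right (m := 1) (by norm_num)).differentiableAt (by norm_num)
    have hD := hd.hasFDerivAt
    obtain ⟨D, hDd⟩ : ∃ D : (Fin m → ℂ) →L[ℝ] (Fin m → ℂ) →L[ℝ] ℂ,
      D = fderiv ℝ (fderiv ℝ f) z := ⟨_, rfl⟩
    have hs : ∀ v w, D v w = D w v := fun v w => by rw [hDd]; exact hsym v w
    rw [← hDd] at hD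
    have happ : ∀ v : Fin m → ℂ, HasFDerivAt (fun y => fderiv ℝ f y v) (D.flip v) z := fun v => by
      have := hD.clm_apply (hasFDerivAt_const v z)
      refine this.congr_fderiv ?_
      ext w
      simp
    have hdz : ∀ i : Fin m, HasFDerivAt (dz i f)
        ((2 : ℂ)⁻¹ • (D.flip (Pi.single i 1) - Complex.I • D.flip (Pi.single i Complex.I))) z := by
      intro i
      have h1 := ((happ (Pi.single i 1)).sub
        ((happ (Pi.single i Complex.I)).const_mul Complex.I)).const_mul (2 : ℂ)⁻¹
      refine h1.congr_of_eventuallyEq (Filter.Eventually.of_forall fun y => ?_)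
      unfold dz
      simp only [Pi.sub_apply]
      ring
    have hdb : ∀ i : Fin m, HasFDerivAt (db i f)
        ((2 : ℂ)⁻¹ • (D.flip (Pi.single i 1) + Complex.I • D.flip (Pi.single i Complex.I))) z := by
      intro i
      have h1 := ((happ (Pi.single i 1)).add
        ((happ (Pi.single i Complex.I)).const_mul Complex.I)).const_mul (2 : ℂ)⁻¹
      refine h1.congr_of_eventuallyEq (Filter.Eventually.of_forall fun y => ?_)
      unfold db
      simp only [Pi.add_apply]
      ring
    refine ⟨?_, ?_, ?_⟩
    · rw [db_of (hdz j), dz_of (hdb k)]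
      simp only [smul_apply, add_apply,
        sub_apply, ContinuousLinearMap.flip_apply, smul_eq_mul]
      rw [hs (Pi.single k 1) (Pi.single j 1), hs (Pi.single k 1) (Pi.single j Complex.I),
        hs (Pi.single k Complex.I) (Pi.single j 1),
        hs (Pi.single k Complex.I) (Pi.single j Complex.I)]
      ring
    · rw [dz_of (hdz j), dz_of (hdz k)]
      simp only [smul_apply, add_apply,
        sub_apply, ContinuousLinearMap.flip_apply, smul_eq_mul]
      rw [hs (Pi.single k 1) (Pi.single j 1), hs (Pi.single k 1) (Pi.single j Complex.I),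
        hs (Pi.single k Complex.I) (Pi.single j 1),
        hs (Pi.single k Complex.I) (Pi.single j Complex.I)]
      ring
    · rw [db_of (hdb j), db_of (hdb k)]
      simp only [smul_apply, add_apply,
        sub_apply, ContinuousLinearMap.flip_apply, smul_eq_mul]
      rw [hs (Pi.single k 1) (Pi.single j 1), hs (Pi.single k 1) (Pi.single j Complex.I),
        hs (Pi.single k Complex.I) (Pi.single j 1),
        hs (Pi.single k Complex.I) (Pi.single j Complex.I)]
      ring
  · intro U hU hf
    have h1 : ContDiffOn ℝ ∞ (fderiv ℝ f) U := hf.fderiv_of_isOpen hU (by simp)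
    have h2 : ∀ v : Fin m → ℂ, ContDiffOn ℝ ∞ (fun y => fderiv ℝ f y v) U :=
      fun v => h1.clm_apply contDiffOn_const
    constructor
    · unfold dz
      exact ((h2 _).sub (contDiffOn_const.mul (h2 _))).div_const 2
    · unfold db
      exact ((h2 _).add (contDiffOn_const.mul (h2 _))).div_const 2

end Pool.Agent.Helper98.KP
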