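import Pool.Agent.Helper85.KP.StE

/-! # Project KP, module EPO: pointwise bounds of the mean and variance of the jumps -/

set_option autoImplicit false

namespace Pool.Agent.Helper98.KP

open MeasureTheory Filter Pool.Agent.Helper52.KP Pool.Agent.Helper85.KP
open scoped ContDiff ComplexOrder Topology

private lemma dbl {N : ℕ} (v a : Fin N → ℝ) :
    (∑ j, a j ^ 2 * v j) * (∑ j, v j) - (∑ j, a j * v j) ^ 2 =
      (1 / 2) * ∑ j, ∑ l, v j * v l * (a j - a l) ^ 2 := by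
  have h1 : ∑ j, ∑ l, v j * v l * (a j - a l) ^ 2 =
      ∑ j, ∑ l, ((a j ^ 2 * v j) * v l + v j * (a l ^ 2 * v l) - 2 * ((a j * v j) * (a l * v l))) :=
    Finset.sum_congr rfl fun j _ => Finset.sum_congr rfl fun l _ => by ring
  rw [h1]
  simp only [Finset.sum_sub_distrib, Finset.sum_add_distrib, ← Finset.mul_sum, ← Finset.sum_mul]
  ring

private lemma dbl2 {N : ℕ} (w a E : Fin N → ℝ) :
    (∑ j, a j * (E j * w j)) * (∑ j, w j) - (∑ j, a j * w j) * (∑ j, E j * w j) =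
      (1 / 2) * ∑ j, ∑ l, w j * w l * ((a j - a l) * (E j - E l)) := by
  have h1 : ∑ j, ∑ l, w j * w l * ((a j - a l) * (E j - E l)) =
      ∑ j, ∑ l, ((a j * (E j * w j)) * w l + w j * (a l * (E l * w l)) -
        ((a j * w j) * (E l * w l) + (E j * w j) * (a l * w l))) :=
    Finset.sum_congr rfl fun j _ => Finset.sum_congr rfl fun l _ => by ring
  rw [h1]
  simp only [Finset.sum_sub_distrib, Finset.sum_add_distrib, ← Finset.mul_sum, ← Finset.sum_mul]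
  ring

private lemma exp_key {t a b : ℝ} (ht : 0 ≤ t) (ha : 0 ≤ a) (hb : 0 ≤ b) :
    t * (a - b) ^ 2 ≤ (a - b) * (Real.exp (t * a) - Real.exp (t * b)) := by
  have key : ∀ x y : ℝ, 0 ≤ y → y ≤ x →
      t * (x - y) ^ 2 ≤ (x - y) * (Real.exp (t * x) - Real.exp (t * y)) := by
    intro x y hy hxy
    have h1 : Real.exp (t * x) = Real.exp (t * y) * Real.exp (t * (x - y)) := by
      rw [← Real.exp_add]; ring_nf
    have h2 : t * (x - y) + 1 ≤ Real.exp (t * (x - y)) := Real.add_one_le_exp _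
    have h3 : 1 ≤ Real.exp (t * y) := Real.one_le_exp (mul_nonneg ht hy)
    have h4 : 0 ≤ t * (x - y) := mul_nonneg ht (sub_nonneg.mpr hxy)
    have h5 : t * (x - y) ≤ Real.exp (t * x) - Real.exp (t * y) := by
      rw [h1]
      nlinarith
    have h6 : 0 ≤ x - y := sub_nonneg.mpr hxy
    calc t * (x - y) ^ 2 = (x - y) * (t * (x - y)) := by ring
      _ ≤ _ := mul_le_mul_of_nonneg_left h5 h6
  rcases le_total b a with h | h
  · exact key a b hb h
  · have := key b a ha h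
    nlinarith

/-- the real statement -/
private lemma real_facts {N : ℕ} (w a : Fin N → ℝ) (L : ℝ) (hL : 0 < L) (hw : ∀ j, 0 ≤ w j)
    (hpos : ∃ j, 0 < w j) (ha0 : ∀ j, 0 ≤ a j) (ha : ∀ j, a j ≤ L) (t : ℝ) (ht : 0 ≤ t)
    (Q0 Q1 Q2 : ℝ → ℝ) (h0 : ∀ t, Q0 t = ∑ j, Real.exp (t * a j) * w j)
    (h1 : ∀ t, Q1 t = ∑ j, a j * (Real.exp (t * a j) * w j))
    (h2 : ∀ t, Q2 t = ∑ j, a j ^ 2 * (Real.exp (t * a j) * w j)) :
    0 < Q0 t ∧ Q0 0 ≤ Q0 t ∧ Q0 t ≤ Real.exp (t * L) * Q0 0 ∧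
    0 ≤ Q1 t / Q0 t ∧ Q1 t / Q0 t ≤ L ∧ 0 ≤ Q2 t / Q0 t - (Q1 t / Q0 t) ^ 2 ∧
    Q2 t / Q0 t - (Q1 t / Q0 t) ^ 2 ≤ L ^ 2 ∧ Q1 0 / Q0 0 ≤ Q1 t / Q0 t ∧
    (Q2 0 / Q0 0 - (Q1 0 / Q0 0) ^ 2) * t ≤ Real.exp (t * L) * (Q1 t / Q0 t - Q1 0 / Q0 0) := by
  have hv : ∀ t j, 0 ≤ Real.exp (t * a j) * w j := fun t j =>
    mul_nonneg (Real.exp_pos _).le (hw j)
  have hQpos : ∀ t, 0 < Q0 t := by
    intro t
    rw [h0]
    obtain ⟨j, hj⟩ := hpos
    exact Finset.sum_pos' (fun j _ => hv t j)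
      ⟨j, Finset.mem_univ j, mul_pos (Real.exp_pos _) hj⟩
  have hle1 : Q0 0 ≤ Q0 t := by
    rw [h0, h0]
    refine Finset.sum_le_sum fun j _ => ?_
    refine mul_le_mul_of_nonneg_right ?_ (hw j)
    rw [zero_mul, Real.exp_zero]
    exact Real.one_le_exp (mul_nonneg ht (ha0 j))
  have hle2 : Q0 t ≤ Real.exp (t * L) * Q0 0 := by
    rw [h0, h0, Finset.mul_sum]
    refine Finset.sum_le_sum fun j _ => ?_
    rw [zero_mul, Real.exp_zero, one_mul]
    exact mul_le_mul_of_nonneg_right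
      (Real.exp_le_exp.mpr (mul_le_mul_of_nonneg_left (ha j) ht)) (hw j)
  have hQ1 : 0 ≤ Q1 t := by
    rw [h1]; exact Finset.sum_nonneg fun j _ => mul_nonneg (ha0 j) (hv t j)
  have hQ1L : Q1 t ≤ L * Q0 t := by
    rw [h1, h0, Finset.mul_sum]
    exact Finset.sum_le_sum fun j _ => mul_le_mul_of_nonneg_right (ha j) (hv t j)
  have hQ2L : Q2 t ≤ L ^ 2 * Q0 t := by
    rw [h2, h0, Finset.mul_sum]
    exact Finset.sum_le_sum fun j _ => mul_le_mul_of_nonneg_right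
      (pow_le_pow_left₀ (ha0 j) (ha j) 2) (hv t j)
  have hvar : ∀ t, Q2 t * Q0 t - Q1 t ^ 2 = (1 / 2) * ∑ j, ∑ l,
      (Real.exp (t * a j) * w j) * (Real.exp (t * a l) * w l) * (a j - a l) ^ 2 := by
    intro t
    rw [h0, h1, h2]
    exact dbl (fun j => Real.exp (t * a j) * w j) a
  have hvar0 : ∀ t, 0 ≤ Q2 t * Q0 t - Q1 t ^ 2 := by
    intro t
    rw [hvar]
    exact mul_nonneg (by norm_num) (Finset.sum_nonneg fun j _ => Finset.sum_nonneg fun l _ =>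
      mul_nonneg (mul_nonneg (hv t j) (hv t l)) (sq_nonneg _))
  have hF2 : ∀ t, Q2 t / Q0 t - (Q1 t / Q0 t) ^ 2 = (Q2 t * Q0 t - Q1 t ^ 2) / Q0 t ^ 2 := by
    intro t
    have := (hQpos t).ne'
    field_simp
  have hcov : Q1 t * Q0 0 - Q1 0 * Q0 t = (1 / 2) * ∑ j, ∑ l, w j * w l *
      ((a j - a l) * (Real.exp (t * a j) - Real.exp (t * a l))) := by
    rw [← dbl2 w a (fun j => Real.exp (t * a j)), h1 t, h0 0, h1 0, h0 t]
    simp only [zero_mul, Real.exp_zero, one_mul]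
  have hcov2 : t * (Q2 0 * Q0 0 - Q1 0 ^ 2) ≤ Q1 t * Q0 0 - Q1 0 * Q0 t := by
    rw [hcov, hvar]
    simp only [zero_mul, Real.exp_zero, one_mul]
    have : t * (1 / 2 * ∑ j, ∑ l, w j * w l * (a j - a l) ^ 2) =
        1 / 2 * ∑ j, ∑ l, w j * w l * (t * (a j - a l) ^ 2) := by
      have e : ∑ j, ∑ l, w j * w l * (t * (a j - a l) ^ 2) =
          t * ∑ j, ∑ l, w j * w l * (a j - a l) ^ 2 := by
        rw [Finset.mul_sum]
        refine Finset.sum_congr rfl fun j _ => ?_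
        rw [Finset.mul_sum]
        exact Finset.sum_congr rfl fun l _ => by ring
      rw [e]; ring
    rw [this]
    refine mul_le_mul_of_nonneg_left ?_ (by norm_num)
    exact Finset.sum_le_sum fun j _ => Finset.sum_le_sum fun l _ =>
      mul_le_mul_of_nonneg_left (exp_key ht (ha0 j) (ha0 l)) (mul_nonneg (hw j) (hw l))
  have hdiff : Q1 t / Q0 t - Q1 0 / Q0 0 = (Q1 t * Q0 0 - Q1 0 * Q0 t) / (Q0 t * Q0 0) := by
    have e1 := (hQpos t).ne'
    have e2 := (hQpos 0).ne'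
    field_simp
  have hp2 : 0 < Q0 t * Q0 0 := mul_pos (hQpos t) (hQpos 0)
  have hd0 : 0 ≤ Q1 t / Q0 t - Q1 0 / Q0 0 := by
    rw [hdiff]
    exact div_nonneg ((mul_nonneg ht (hvar0 0)).trans hcov2) hp2.le
  refine ⟨hQpos t, hle1, hle2, div_nonneg hQ1 (hQpos t).le, ?_, ?_, ?_, by linarith, ?_⟩
  · rw [div_le_iff₀ (hQpos t)]; exact hQ1L
  · rw [hF2]; exact div_nonneg (hvar0 t) (sq_nonneg _)
  · have : Q2 t / Q0 t ≤ L ^ 2 := by rw [div_le_iff₀ (hQpos t)]; exact hQ2L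
    nlinarith [sq_nonneg (Q1 t / Q0 t)]
  · rw [hF2, hdiff]
    have h3 : (Q2 0 * Q0 0 - Q1 0 ^ 2) / Q0 0 ^ 2 * t =
        (t * (Q2 0 * Q0 0 - Q1 0 ^ 2)) / Q0 0 ^ 2 := by ring
    rw [h3, ← mul_div_assoc, div_le_div_iff₀ (pow_pos (hQpos 0) 2) hp2]
    have h4 : Q0 t * Q0 0 ≤ Real.exp (t * L) * Q0 0 ^ 2 := by
      nlinarith [mul_le_mul_of_nonneg_right hle2 (hQpos 0).le]
    calc t * (Q2 0 * Q0 0 - Q1 0 ^ 2) * (Q0 t * Q0 0)
        ≤ t * (Q2 0 * Q0 0 - Q1 0 ^ 2) * (Real.exp (t * L) * Q0 0 ^ 2) :=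
          mul_le_mul_of_nonneg_left h4 (mul_nonneg ht (hvar0 0))
      _ ≤ (Q1 t * Q0 0 - Q1 0 * Q0 t) * (Real.exp (t * L) * Q0 0 ^ 2) :=
          mul_le_mul_of_nonneg_right hcov2
            (mul_nonneg (Real.exp_pos _).le (sq_nonneg _))
      _ = Real.exp (t * L) * (Q1 t * Q0 0 - Q1 0 * Q0 t) * Q0 0 ^ 2 := by ring

theorem hEPO : StEPO := by
  intro C hC D N hD s lam hs L hL hlam z hz t ht
  have hpow : ∀ i, ∀ k : ℕ, C.X i ^ k ∈ C.R k := by
    intro i k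
    induction k with
    | zero => rw [pow_zero]; exact hC.one
    | succ k ih => rw [pow_succ]; exact hC.mul k 1 _ _ ih (hC.XR i)
  have hpos : ∃ j, 0 < ‖ev (s j) z‖ ^ 2 := by
    by_contra hcon
    push Not at hcon
    have hzero : ∀ j, ev (s j) z = 0 := by
      intro j
      have h1 := hcon j
      have h2 : ‖ev (s j) z‖ ^ 2 = 0 := le_antisymm h1 (sq_nonneg _)
      exact norm_eq_zero.mp (pow_eq_zero_iff (two_ne_zero)|>.mp h2)
    have hall : ∀ f ∈ C.R D, ev f z = 0 := by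
      intro f hf
      rw [← hs] at hf
      refine Submodule.span_induction (p := fun f _ => ev f z = 0) ?_ ?_ ?_ ?_ hf
      · rintro _ ⟨j, rfl⟩; exact hzero j
      · exact map_zero _
      · intro x y _ _ hx hy
        show MvPolynomial.eval z (x + y) = 0
        rw [map_add]
        show ev x z + ev y z = 0
        rw [hx, hy, add_zero]
      · intro c x _ hx
        show MvPolynomial.eval z (c • x) = 0
        rw [MvPolynomial.smul_eval]
        show c * ev x z = 0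
        rw [hx, mul_zero]
    have hsz := hC.Xpos z hz
    have hX : ∀ i, ev (C.X i) z = 0 := by
      intro i
      have h1 := hall _ (hpow i D)
      have h2 : ev (C.X i) z ^ D = 0 := by
        rw [← map_pow]; exact h1
      exact pow_eq_zero_iff hD.ne' |>.mp h2
    unfold Cone.sz at hsz
    rw [Finset.sum_eq_zero (fun i _ => by rw [hX i, norm_zero])] at hsz
    exact lt_irrefl _ hsz
  obtain ⟨w, hw⟩ : ∃ w : Fin N → ℝ, w = fun j => ‖ev (s j) z‖ ^ 2 := ⟨_, rfl⟩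
  obtain ⟨a, ha⟩ : ∃ a : Fin N → ℝ, a = fun j => (lam j : ℝ) := ⟨_, rfl⟩
  have hw0 : ∀ j, 0 ≤ w j := fun j => by rw [hw]; exact sq_nonneg _
  have hwp : ∃ j, 0 < w j := by rw [hw]; exact hpos
  have ha0 : ∀ j, 0 ≤ a j := fun j => by rw [ha]; exact Nat.cast_nonneg _
  have haL : ∀ j, a j ≤ L := fun j => by rw [ha]; exact hlam j
  have h0 : ∀ t, PP s lam t z = ∑ j, Real.exp (t * a j) * w j := fun t => by
    rw [hw, ha]; rfl
  have h1 : ∀ t, PPn 1 s lam t z = ∑ j, a j * (Real.exp (t * a j) * w j) := fun t => by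
    rw [hw, ha]
    unfold PPn
    exact Finset.sum_congr rfl fun j _ => by ring
  have h2 : ∀ t, PPn 2 s lam t z = ∑ j, a j ^ 2 * (Real.exp (t * a j) * w j) := fun t => by
    rw [hw, ha]
    unfold PPn
    exact Finset.sum_congr rfl fun j _ => by ring
  have key := fun t ht => real_facts w a L hL hw0 hwp ha0 haL t ht
    (fun t => PP s lam t z) (fun t => PPn 1 s lam t z) (fun t => PPn 2 s lam t z) h0 h1 h2
  obtain ⟨k1, k2, k3, k4, k5, k6, k7, k8, -⟩ := key t ht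
  obtain ⟨-, -, -, -, -, -, -, -, k9⟩ := key (1 / L) (by positivity)
  refine ⟨k1, k2, k3, k4, k5, k6, k7, k8, ?_, ?_⟩
  · have hLL : 1 / L * L = 1 := by field_simp
    rw [hLL] at k9
    have hd : 0 ≤ F1 s lam (1 / L) z - F1 s lam 0 z :=
      sub_nonneg.mpr (key (1 / L) (by positivity)).2.2.2.2.2.2.2.1
    have h5 : F2 s lam 0 z * (1 / L) ≤
        Real.exp 1 * (F1 s lam (1 / L) z - F1 s lam 0 z) := k9
    have h6 : F2 s lam 0 z ≤ Real.exp 1 * L * (F1 s lam (1 / L) z - F1 s lam 0 z) := by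
      have h7 := mul_le_mul_of_nonneg_right h5 hL.le
      have h8 : F2 s lam 0 z * (1 / L) * L = F2 s lam 0 z := by field_simp
      rw [h8] at h7
      linarith
    refine h6.trans ?_
    have h9 : Real.exp 1 ≤ Real.exp 2 := Real.exp_le_exp.mpr (by norm_num)
    exact mul_le_mul_of_nonneg_right (mul_le_mul_of_nonneg_right h9 hL.le) hd
  · intro c hc
    have hsR : ∀ j, s j ∈ C.R D := fun j => by
      rw [← hs]; exact Submodule.subset_span ⟨j, rfl⟩
    have hev : ∀ j, ‖ev (s j) (scl C.w c z)‖ ^ 2 = ‖c‖ ^ (2 * D) * ‖ev (s j) z‖ ^ 2 := by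
      intro j
      rw [hC.hom D _ (hsR j) c z, norm_mul, norm_pow, mul_pow, ← pow_mul, mul_comm D 2]
    have e0 : PP s lam t (scl C.w c z) = ‖c‖ ^ (2 * D) * PP s lam t z := by
      unfold PP
      rw [Finset.mul_sum]
      exact Finset.sum_congr rfl fun j _ => by rw [hev j]; ring
    have en : ∀ n, PPn n s lam t (scl C.w c z) = ‖c‖ ^ (2 * D) * PPn n s lam t z := by
      intro n
      unfold PPn
      rw [Finset.mul_sum]
      exact Finset.sum_congr rfl fun j _ => by rw [hev j]; ring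
    have hcn : ‖c‖ ^ (2 * D) ≠ 0 := pow_ne_zero _ (norm_ne_zero_iff.mpr hc)
    have eF1 : F1 s lam t (scl C.w c z) = F1 s lam t z := by
      unfold F1
      rw [e0, en, mul_div_mul_left _ _ hcn]
    refine ⟨e0, eF1, ?_⟩
    unfold F2
    rw [e0, en, eF1, mul_div_mul_left _ _ hcn]

end Pool.Agent.Helper98.KP
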